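import Mathlib
import Pool.Agent.Q113.XM.Stm

/-!
# Project XM (helper113), job XM-LMW: the weighted i.i.d. inequality from the counting form
-/

set_option autoImplicit false

namespace Pool.Agent.Q24.XM

open Finset Filter Topology Pool.Agent.W890.SF Pool.Agent.W593.IR Pool.Agent.Q54.EM
open Pool.Agent.Q113.XM

section EE

variable {ι : Type} [Fintype ι]

theorem EE_nonneg {p x : ι → ℝ} (hp : ∀ i, 0 ≤ p i) (n : ℕ) :
    ∀ f : ℝ → ℝ, (∀ s, 0 ≤ f s) → 0 ≤ EE p x n f := by
  induction n with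
  | zero => intro f hf; exact hf 0
  | succ n ih =>
    intro f hf
    exact Finset.sum_nonneg fun i _ => mul_nonneg (hp i) (ih _ fun s => hf _)

theorem EE_le_one {p x : ι → ℝ} (hp : ∀ i, 0 ≤ p i) (h1 : ∑ i, p i = 1) (n : ℕ) :
    ∀ f : ℝ → ℝ, (∀ s, f s ≤ 1) → EE p x n f ≤ 1 := by
  induction n with
  | zero => intro f hf; exact hf 0
  | succ n ih =>
    intro f hf
    have h2 : EE p x (n + 1) f ≤ ∑ i, p i * 1 :=
      Finset.sum_le_sum fun i _ => mul_le_mul_of_nonneg_left (ih _ fun s => hf _) (hp i)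
    simpa [h1] using h2

theorem EE_zero_mean {p x : ι → ℝ} (h1 : ∑ i, p i = 1) (h0 : ∀ i, p i * x i = 0) (n : ℕ) :
    ∀ f : ℝ → ℝ, EE p x n f = f 0 := by
  induction n with
  | zero => intro f; rfl
  | succ n ih =>
    intro f
    have h2 : EE p x (n + 1) f = ∑ i, p i * f 0 := by
      refine Finset.sum_congr rfl fun i _ => ?_
      rw [ih]
      rcases mul_eq_zero.1 (h0 i) with h | h
      · rw [h, zero_mul, zero_mul]
      · rw [h, add_zero]
    rw [h2, ← Finset.sum_mul, h1, one_mul]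

theorem EE_scale (c : ℝ) (p x : ι → ℝ) (n : ℕ) :
    ∀ f : ℝ → ℝ, EE (fun i => c * p i) x n f = c ^ n * EE p x n f := by
  induction n with
  | zero => intro f; simp [EE]
  | succ n ih =>
    intro f
    have h2 : EE (fun i => c * p i) x (n + 1) f =
        ∑ i, (c * p i) * EE (fun i => c * p i) x n (fun s => f (s + x i)) := rfl
    have h3 : EE p x (n + 1) f = ∑ i, p i * EE p x n (fun s => f (s + x i)) := rfl
    rw [h2, h3, Finset.mul_sum]
    refine Finset.sum_congr rfl fun i _ => ?_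
    rw [ih]
    ring

theorem EE_tendsto {p : ℕ → ι → ℝ} {p₀ : ι → ℝ}
    (h : ∀ i, Tendsto (fun M => p M i) atTop (𝓝 (p₀ i))) (x : ι → ℝ) (n : ℕ) :
    ∀ f : ℝ → ℝ, Tendsto (fun M => EE (p M) x n f) atTop (𝓝 (EE p₀ x n f)) := by
  induction n with
  | zero => intro f; exact tendsto_const_nhds
  | succ n ih =>
    intro f
    exact tendsto_finsetSum _ fun i _ => (h i).mul (ih _)

/-- comparison with the uniform measure on a finite set -/
theorem EE_le_sum (q : ι → ℕ) (r : ℕ) (y : ι → ℝ) (n : ℕ) : ∀ f : ℝ → ℝ, (∀ s, 0 ≤ f s) →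
    EE (fun i => (q i : ℝ)) y n f ≤ EE (fun _ : (Σ i, Fin (q i)) ⊕ Fin r => (1 : ℝ))
      (Sum.elim (fun a => y a.1) (fun _ => 0)) n f := by
  induction n with
  | zero => intro f _; exact le_rfl
  | succ n ih =>
    intro f hf
    have h2 : EE (fun i => (q i : ℝ)) y (n + 1) f =
        ∑ i, (q i : ℝ) * EE (fun i => (q i : ℝ)) y n (fun s => f (s + y i)) := rfl
    have h3 : EE (fun _ : (Σ i, Fin (q i)) ⊕ Fin r => (1 : ℝ))
        (Sum.elim (fun a => y a.1) (fun _ => 0)) (n + 1) f =
        ∑ v, 1 * EE (fun _ : (Σ i, Fin (q i)) ⊕ Fin r => (1 : ℝ))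
          (Sum.elim (fun a => y a.1) (fun _ => 0)) n
          (fun s => f (s + (Sum.elim (fun a => y a.1) (fun _ => 0) :
            (Σ i, Fin (q i)) ⊕ Fin r → ℝ) v)) := rfl
    rw [h2, h3, Fintype.sum_sum_type, Fintype.sum_sigma]
    simp only [Sum.elim_inl, Sum.elim_inr, one_mul, Finset.sum_const, Finset.card_univ,
      Fintype.card_fin, nsmul_eq_mul]
    have h4 : 0 ≤ (r : ℝ) * EE (fun _ : (Σ i, Fin (q i)) ⊕ Fin r => (1 : ℝ))
        (Sum.elim (fun a => y a.1) (fun _ => 0)) n (fun s => f (s + 0)) :=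
      mul_nonneg (Nat.cast_nonneg r) (EE_nonneg (fun _ => zero_le_one) n _ fun s => hf _)
    have h5 : ∑ i, (q i : ℝ) * EE (fun i => (q i : ℝ)) y n (fun s => f (s + y i)) ≤
        ∑ i, (q i : ℝ) * EE (fun _ : (Σ i, Fin (q i)) ⊕ Fin r => (1 : ℝ))
          (Sum.elim (fun a => y a.1) (fun _ => 0)) n (fun s => f (s + y i)) :=
      Finset.sum_le_sum fun i _ => mul_le_mul_of_nonneg_left (ih _ fun s => hf _)
        (Nat.cast_nonneg _)
    linarith

/-- the tuple formula -/
theorem EE_tup (y : ι → ℝ) (n : ℕ) : ∀ f : ℝ → ℝ,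
    EE (fun _ : ι => (1 : ℝ)) y n f = ∑ v : Fin n → ι, f (∑ i, y (v i)) := by
  induction n with
  | zero => intro f; simp [EE]
  | succ n ih =>
    intro f
    have h2 : EE (fun _ : ι => (1 : ℝ)) y (n + 1) f =
        ∑ i, 1 * EE (fun _ : ι => (1 : ℝ)) y n (fun s => f (s + y i)) := rfl
    rw [h2, ← (Fin.consEquiv (fun _ : Fin (n + 1) => ι)).sum_comp, Fintype.sum_prod_type]
    refine Finset.sum_congr rfl fun i _ => ?_
    rw [one_mul, ih]
    refine Finset.sum_congr rfl fun v _ => ?_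
    congr 1
    rw [Fin.sum_univ_succ, add_comm]
    simp [Fin.consEquiv]

end EE

/-- tuples and edges -/
theorem count {V : Type} [Fintype V] [DecidableEq V] (k : ℕ) (y : V → ℝ) :
    ((univ.filter (fun f : Fin k → V => 1 ≤ ∑ i, y (f i))).card : ℝ) ≤
      (((univ.powersetCard k).filter (fun e : Finset V => 1 ≤ ∑ v ∈ e, y v)).card * k.factorial : ℕ)
      + ((Fintype.card V : ℝ) ^ k - ((Fintype.card V).descFactorial k : ℝ)) := by
  classical
  set F := (univ.powersetCard k).filter (fun e : Finset V => 1 ≤ ∑ v ∈ e, y v) with hF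
  set A := univ.filter (fun f : Fin k → V => 1 ≤ ∑ i, y (f i)) with hA
  set J := univ.filter (fun f : Fin k → V => Function.Injective f) with hJ
  have hJc : J.card = (Fintype.card V).descFactorial k := by
    rw [hJ, ← Fintype.card_subtype, Fintype.card_congr
      (Equiv.subtypeInjectiveEquivEmbedding (Fin k) V), Fintype.card_embedding_eq, Fintype.card_fin]
  have hJn : ((univ \ J).card : ℝ) = (Fintype.card V : ℝ) ^ k -
      ((Fintype.card V).descFactorial k : ℝ) := by
    have h1 : (univ \ J).card + J.card = Fintype.card V ^ k := by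
      rw [Finset.card_sdiff_add_card_eq_card (subset_univ J), Finset.card_univ]
      simp
    rw [hJc] at h1
    have h2 : ((univ \ J).card : ℝ) + ((Fintype.card V).descFactorial k : ℝ) =
        (Fintype.card V : ℝ) ^ k := by exact_mod_cast h1
    linarith
  have h1 : (A ∩ J).card ≤ F.card * k.factorial := by
    rw [mul_comm]
    refine Finset.card_le_mul_card_image_of_maps_to (f := fun f : Fin k → V => univ.image f) ?_ _ ?_
    · intro f hf
      rw [mem_inter, hA, hJ, mem_filter, mem_filter] at hf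
      rw [hF, mem_filter, mem_powersetCard]
      refine ⟨⟨subset_univ _, ?_⟩, ?_⟩
      · rw [Finset.card_image_of_injective _ hf.2.2, Finset.card_univ, Fintype.card_fin]
      · rw [Finset.sum_image fun a _ b _ h => hf.2.2 h]
        exact hf.1.2
    · intro e he
      rw [hF, mem_filter, mem_powersetCard] at he
      have h2 : (k.factorial : ℕ) = Fintype.card (Fin k ↪ e) := by
        rw [Fintype.card_embedding_eq, Fintype.card_coe, he.1.2, Fintype.card_fin,
          Nat.descFactorial_self]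
      rw [h2, ← Fintype.card_coe]
      have hmem : ∀ f ∈ (A ∩ J).filter (fun f : Fin k → V => univ.image f = e),
          Function.Injective f ∧ ∀ j, f j ∈ e := by
        intro f hf
        obtain ⟨hf1, hf2⟩ := mem_filter.1 hf
        refine ⟨(mem_filter.1 (mem_inter.1 hf1).2).2, fun j => ?_⟩
        rw [← hf2]
        exact mem_image_of_mem _ (mem_univ j)
      refine Fintype.card_le_of_injective
        (fun f => (⟨fun j => ⟨f.1 j, (hmem f.1 f.2).2 j⟩, fun a b hab =>
          (hmem f.1 f.2).1 (congrArg Subtype.val hab)⟩ : Fin k ↪ e)) ?_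
      intro f g hfg
      apply Subtype.ext
      funext j
      have h3 := congrArg (fun u : Fin k ↪ e => ((u j : e) : V)) hfg
      exact h3
  have h2 : A.card ≤ (A ∩ J).card + (univ \ J).card := by
    have h3 : A ⊆ (A ∩ J) ∪ (univ \ J) := by
      intro f hf
      by_cases h : f ∈ J
      · exact mem_union_left _ (mem_inter.2 ⟨hf, h⟩)
      · exact mem_union_right _ (mem_sdiff.2 ⟨mem_univ _, h⟩)
    exact (card_le_card h3).trans (card_union_le _ _)
  rw [← hJn]
  have h3 : A.card ≤ F.card * k.factorial + (univ \ J).card := h2.trans (Nat.add_le_add_right h1 _)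
  exact_mod_cast h3

theorem t_LMW : S_LMW := by
  classical
  intro k hk hIB hMINC hFAC ι _ p y x hW hmu hx hkx
  have hk0 : (0 : ℝ) < k := by positivity
  have hind : ∀ s : ℝ, 0 ≤ (if (1 : ℝ) ≤ s then (1 : ℝ) else 0) := fun s => by
    split_ifs <;> norm_num
  have hind1 : ∀ s : ℝ, (if (1 : ℝ) ≤ s then (1 : ℝ) else 0) ≤ 1 := fun s => by
    split_ifs <;> norm_num
  have hmv : (k * x) ^ k ≤ mv k x := le_max_right _ _
  rcases hx.eq_or_lt with hx0 | hx0
  · -- mean zero
    have h0 : ∀ i, p i * y i = 0 := by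
      have h1 : ∑ i, p i * y i = 0 := by
        refine le_antisymm (hmu.trans (le_of_eq hx0.symm)) ?_
        exact Finset.sum_nonneg fun i _ => mul_nonneg (hW.p0 i) (hW.y0 i)
      intro i
      exact (Finset.sum_eq_zero_iff_of_nonneg fun i _ => mul_nonneg (hW.p0 i) (hW.y0 i)).1 h1 i
        (mem_univ i)
    have h1 : UP p y k 1 = 0 := by
      unfold UP
      rw [EE_zero_mean hW.p1 h0]
      norm_num
    rw [h1]
    exact le_trans (by positivity) hmv
  rcases hkx.eq_or_lt with hkx1 | hkx1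
  · have h1 : UP p y k 1 ≤ 1 := EE_le_one hW.p0 hW.p1 k _ hind1
    refine h1.trans (le_trans ?_ hmv)
    rw [hkx1, one_pow]
  -- the main case
  refine le_of_forall_pos_le_add fun ε hε => ?_
  obtain ⟨η, hη, hib⟩ := hIB x hx0 hkx1 ε hε
  obtain ⟨M₀, hM₀⟩ := exists_nat_ge (1 / (k * η))
  -- the inequality for large `M`
  have hmain : ∀ M : ℕ, max (M₀ + 1) k ≤ M → EE (fun i => ((⌊p i * M⌋₊ : ℕ) : ℝ) / M) y k
      (fun s => if 1 ≤ s then 1 else 0) ≤ mv k x + ε + (1 - (1 - (k : ℝ) / M) ^ k) := by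
    intro M hM
    have hM1 : M₀ + 1 ≤ M := (le_max_left _ _).trans hM
    have hMk : k ≤ M := (le_max_right _ _).trans hM
    have hMpos : (0 : ℝ) < M := by exact_mod_cast (show 0 < M by omega)
    have hMη : 1 ≤ k * η * M := by
      have h1 : 1 / (k * η) ≤ (M : ℝ) := hM₀.trans (by exact_mod_cast (by omega : M₀ ≤ M))
      rw [div_le_iff₀ (by positivity)] at h1
      linarith
    set q : ι → ℕ := fun i => ⌊p i * M⌋₊ with hq
    have hqr : ∀ i, (q i : ℝ) ≤ p i * M := fun i =>
      Nat.floor_le (mul_nonneg (hW.p0 i) hMpos.le)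
    have hqs : ∑ i, q i ≤ M := by
      have h1 : ((∑ i, q i : ℕ) : ℝ) ≤ M := by
        push_cast
        calc ∑ i, (q i : ℝ) ≤ ∑ i, p i * M := Finset.sum_le_sum fun i _ => hqr i
          _ = M := by rw [← Finset.sum_mul, hW.p1, one_mul]
      exact_mod_cast h1
    let V : Type := (Σ i, Fin (q i)) ⊕ Fin (M - ∑ i, q i)
    let y' : V → ℝ := Sum.elim (fun a => y a.1) (fun _ => 0)
    have hcard : Fintype.card V = M := by
      change Fintype.card ((Σ i, Fin (q i)) ⊕ Fin (M - ∑ i, q i)) = M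
      rw [Fintype.card_sum, Fintype.card_sigma, Fintype.card_fin]
      simp only [Fintype.card_fin]
      omega
    have hy' : ∀ v, 0 ≤ y' v := by
      rintro (a | b)
      · exact hW.y0 _
      · exact le_rfl
    have hys : ∑ v, y' v ≤ x * M := by
      change ∑ v : (Σ i, Fin (q i)) ⊕ Fin (M - ∑ i, q i),
        (Sum.elim (fun a => y a.1) (fun _ => 0) : _ → ℝ) v ≤ x * M
      rw [Fintype.sum_sum_type, Fintype.sum_sigma]
      simp only [Sum.elim_inl, Sum.elim_inr, Finset.sum_const, Finset.card_univ, Fintype.card_fin,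
        nsmul_eq_mul, mul_zero, add_zero]
      calc ∑ i, (q i : ℝ) * y i ≤ ∑ i, (p i * M) * y i :=
            Finset.sum_le_sum fun i _ => mul_le_mul_of_nonneg_right (hqr i) (hW.y0 i)
        _ = mu p y * M := by
            unfold mu
            rw [Finset.sum_mul]
            exact Finset.sum_congr rfl fun i _ => by ring
        _ ≤ x * M := mul_le_mul_of_nonneg_right hmu hMpos.le
    set F := (univ.powersetCard k).filter (fun e : Finset V => 1 ≤ ∑ v ∈ e, y' v) with hF
    have hU : Unif k F := by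
      intro e he
      rw [hF, mem_filter, mem_powersetCard] at he
      exact he.1.2
    have hFy : ∀ e ∈ F, 1 ≤ ∑ v ∈ e, y' v := by
      intro e he
      rw [hF, mem_filter] at he
      exact he.2
    obtain ⟨z, hz0, hzF, hzs, hzc⟩ := hMINC V k F y' (by omega) hU hy' hFy
    have hzM : (k : ℝ) * ∑ v, z v ≤ k * x * M := by
      have h1 : (k : ℝ) * ∑ v, z v ≤ k * (x * M) :=
        mul_le_mul_of_nonneg_left (hzs.trans hys) hk0.le
      linarith
    set s : ℕ := ⌈k * x * M⌉₊ with hs
    have hsM : (k : ℝ) * x * M ≤ s := Nat.le_ceil _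
    have hs0 : 0 < s := Nat.ceil_pos.2 (by positivity)
    have hs1 : (s : ℝ) < k * x * M + 1 := Nat.ceil_lt_add_one (by positivity)
    have hNG := hib V z s hz0 hs0 (by
      rw [hcard]
      refine Nat.ceil_le.2 ?_
      nlinarith) (by
      have h1 : ((univ.filter (fun v => z v ≠ 0)).card : ℝ) ≤ s := hzc.trans (hzM.trans hsM)
      exact_mod_cast h1) (hzM.trans hsM) (by
      rw [hcard]
      nlinarith)
    rw [hcard] at hNG
    have hfac := hFAC V k F z hU hzF
    have hcount := count k y'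
    rw [hcard, ← hF] at hcount
    have hEE : EE (fun i => (q i : ℝ)) y k (fun s => if 1 ≤ s then 1 else 0) ≤
        ((univ.filter (fun f : Fin k → V => 1 ≤ ∑ i, y' (f i))).card : ℝ) := by
      refine (EE_le_sum q (M - ∑ i, q i) y k _ hind).trans (le_of_eq ?_)
      rw [EE_tup, Finset.card_filter]
      push_cast
      rfl
    have hfac' : ((F.card * k.factorial : ℕ) : ℝ) ≤ (M : ℝ) ^ k * (mv k x + ε) :=
      le_trans (by exact_mod_cast hfac) hNG
    have htot : EE (fun i => (q i : ℝ)) y k (fun s => if 1 ≤ s then 1 else 0) ≤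
        (M : ℝ) ^ k * (mv k x + ε) + ((M : ℝ) ^ k - (M.descFactorial k : ℝ)) := by
      linarith
    have hdf : ((M : ℝ) - k) ^ k ≤ (M.descFactorial k : ℝ) := by
      have h1 := Nat.pow_sub_le_descFactorial M k
      have h2 : (((M + 1 - k) ^ k : ℕ) : ℝ) ≤ (M.descFactorial k : ℝ) := by exact_mod_cast h1
      refine le_trans ?_ h2
      rw [Nat.cast_pow, Nat.cast_sub (by omega)]
      push_cast
      have h3 : (k : ℝ) ≤ M := by exact_mod_cast hMk
      exact pow_le_pow_left₀ (by linarith) (by linarith) k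
    have hsc : (fun i => ((⌊p i * M⌋₊ : ℕ) : ℝ) / M) = fun i => (1 / (M : ℝ)) * (q i : ℝ) := by
      funext i
      rw [hq]
      ring
    rw [hsc, EE_scale, one_div, inv_pow, inv_mul_le_iff₀ (by positivity)]
    refine htot.trans ?_
    have h5 : (M : ℝ) ^ k * (1 - (k : ℝ) / M) ^ k = ((M : ℝ) - k) ^ k := by
      rw [← mul_pow]
      congr 1
      field_simp
    have h6 : (M : ℝ) ^ k * (mv k x + ε + (1 - (1 - (k : ℝ) / M) ^ k)) =
        (M : ℝ) ^ k * (mv k x + ε) + ((M : ℝ) ^ k - (M : ℝ) ^ k * (1 - (k : ℝ) / M) ^ k) := by ring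
    rw [h6, h5]
    linarith
  -- the limit
  have hlim1 : Tendsto (fun M : ℕ => EE (fun i => ((⌊p i * M⌋₊ : ℕ) : ℝ) / M) y k
      (fun s => if 1 ≤ s then 1 else 0)) atTop (𝓝 (UP p y k 1)) := by
    refine EE_tendsto (fun i => ?_) y k _
    exact (tendsto_nat_floor_mul_div_atTop (hW.p0 i)).comp tendsto_natCast_atTop_atTop
  have hlim2 : Tendsto (fun M : ℕ => mv k x + ε + (1 - (1 - (k : ℝ) / M) ^ k)) atTop
      (𝓝 (mv k x + ε + (1 - (1 - 0) ^ k))) :=
    tendsto_const_nhds.add (tendsto_const_nhds.sub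
      ((tendsto_const_nhds.sub (tendsto_const_div_atTop_nhds_zero_nat (k : ℝ))).pow k))
  rw [sub_zero, one_pow, sub_self, add_zero] at hlim2
  exact le_of_tendsto_of_tendsto hlim1 hlim2
    (eventually_atTop.2 ⟨max (M₀ + 1) k, fun M hM => hmain M hM⟩)

end Pool.Agent.Q24.XM
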